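import Pool.Agent.helper67.GV.Spec

set_option autoImplicit false

open Finset Filter Topology

namespace Pool.Agent.helper67.GV

open Pool.Agent.helper21.GR

theorem BXC_card (T : ℕ) (n : Fin T → ℕ) : (box n).card = ∏ j, n j := by
  unfold box
  rw [Fintype.card_piFinset]
  refine Finset.prod_congr rfl (fun j _ => ?_)
  rw [card_range]

theorem BXC : BXC_stmt := by
  intro T n b
  refine ⟨?_, fun hpos => ⟨?_, ?_⟩⟩
  · rw [BXC_card, BXC_card, ← Finset.mul_prod_erase univ n (mem_univ b),
      ← Finset.mul_prod_erase univ (Function.update n b 1) (mem_univ b), Function.update_self, one_mul]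
    congr 1
    refine Finset.prod_congr rfl (fun j hj => ?_)
    rw [Function.update_of_ne (Finset.ne_of_mem_erase hj)]
  · rw [BXC_card]
    exact Finset.prod_pos (fun j _ => hpos j)
  · rw [BXC_card]
    refine Finset.prod_pos (fun j _ => ?_)
    by_cases hj : j = b
    · subst hj
      rw [Function.update_self]
      exact Nat.one_pos
    · rw [Function.update_of_ne hj]
      exact hpos j

end Pool.Agent.helper67.GV
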