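import Pool.Agent.helper67.GV.Spec

set_option autoImplicit false

open Finset Filter Topology

namespace Pool.Agent.helper67.GV

open Pool.Agent.helper21.GR

theorem MSA_single (T : ℕ) (a : Fin T) (k : ℕ) :
    ms (Pi.single a k : Fin T → ℕ) = k • ({(a : ℕ) + 1} : Multiset ℕ) := by
  unfold ms
  rw [Finset.sum_eq_single a]
  · rw [Pi.single_eq_same]
  · intro b _ hb
    rw [Pi.single_eq_of_ne hb, zero_smul]
  · intro h
    exact absurd (mem_univ a) h

theorem MSA_add (T : ℕ) (x y : Fin T → ℕ) : ms (x + y) = ms x + ms y := by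
  unfold ms
  rw [← Finset.sum_add_distrib]
  refine Finset.sum_congr rfl (fun j _ => ?_)
  rw [Pi.add_apply, add_smul]

theorem MSA : MSA_stmt := by
  refine ⟨?_, ?_, ?_, ?_⟩
  · intro T x a
    rw [MSA_add, MSA_single, one_smul, add_comm, Multiset.singleton_add]
  · intro T x c hc
    unfold ms at hc
    rw [Multiset.mem_sum] at hc
    obtain ⟨j, _, hj⟩ := hc
    have h1 := Multiset.mem_of_mem_nsmul hj
    rw [Multiset.mem_singleton] at h1
    have := j.isLt
    omega
  · intro T
    unfold ms
    refine Finset.sum_eq_zero (fun j _ => ?_)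
    rw [Pi.zero_apply, zero_smul]
  · intro T k
    rw [MSA_single, Multiset.nsmul_singleton, Fin.val_last]

end Pool.Agent.helper67.GV
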