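import Pool.Agent.helper67.GV.Spec

set_option autoImplicit false

open Finset Filter Topology

namespace Pool.Agent.helper67.GV

open Pool.Agent.helper21.GR

theorem SHF (hTEL : TEL_stmt) (hBXC : BXC_stmt) : SHF_stmt := by
  intro T n f C b hpos hf
  obtain ⟨h1, h2⟩ := hBXC T n b
  obtain ⟨h3, h4⟩ := h2 hpos
  have h5 := hTEL T n f b
  have hnb : (0 : ℝ) < n b := by exact_mod_cast hpos b
  have hc' : (0 : ℝ) < ((box (Function.update n b 1)).card : ℝ) := by exact_mod_cast h4
  have hcard : ((box n).card : ℝ) = n b * ((box (Function.update n b 1)).card : ℝ) := by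
    rw [h1]
    push_cast
    ring
  have h6 : mean n (fun x => f (x + Pi.single b 1)) - mean n f =
      (∑ y ∈ box (Function.update n b 1), (f (y + Pi.single b (n b)) - f y)) /
        (n b * ((box (Function.update n b 1)).card : ℝ)) := by
    unfold mean
    rw [← hcard, ← h5, Finset.sum_sub_distrib, sub_div]
  have h7 : |∑ y ∈ box (Function.update n b 1), (f (y + Pi.single b (n b)) - f y)| ≤
      ((box (Function.update n b 1)).card : ℝ) * (2 * C) := by
    refine (Finset.abs_sum_le_sum_abs _ _).trans ?_
    have h8 : ∀ y ∈ box (Function.update n b 1), |f (y + Pi.single b (n b)) - f y| ≤ 2 * C := by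
      intro y _
      have h9 := abs_le.mp (hf (y + Pi.single b (n b)))
      have h10 := abs_le.mp (hf y)
      rw [abs_le]
      constructor <;> linarith [h9.1, h9.2, h10.1, h10.2]
    have h11 := Finset.sum_le_card_nsmul _ _ _ h8
    rw [nsmul_eq_mul] at h11
    exact h11
  rw [h6, abs_div, abs_of_pos (mul_pos hnb hc'), div_le_div_iff₀ (mul_pos hnb hc') hnb]
  calc |∑ y ∈ box (Function.update n b 1), (f (y + Pi.single b (n b)) - f y)| * (n b : ℝ)
      ≤ (((box (Function.update n b 1)).card : ℝ) * (2 * C)) * (n b : ℝ) :=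
        mul_le_mul_of_nonneg_right h7 hnb.le
    _ = 2 * C * ((n b : ℝ) * ((box (Function.update n b 1)).card : ℝ)) := by ring

end Pool.Agent.helper67.GV
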