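import Pool.Agent.helper67.GV.Spec

set_option autoImplicit false

open Finset Filter Topology

namespace Pool.Agent.helper67.GV

open Pool.Agent.helper21.GR

theorem UPF (hUPR : UPR_stmt) (hGRC : GRC_stmt) : UPF_stmt := by
  intro T g hT hw k hk
  obtain ⟨_, _, f, hsym, hgal, hcl⟩ := hGRC T k hT hk
  exact hUPR T g hT hw k _ hk f hsym hgal hcl

end Pool.Agent.helper67.GV
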